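import Pool.Agent.W626.AH.Stm

/-! Project AH (helper626), part GEO: the hull is geodesic. -/

set_option autoImplicit false

namespace Pool.Agent.W557.AH

open Pool.Agent.W626.AH

theorem main : S_hm → S_ret → S_geo := by
  intro h1 h2 X _ d hd' f g
  obtain ⟨m1, m2, m3, m4, -⟩ := h1 X d hd'
  obtain ⟨p, p1, p2, p3⟩ := h2 X d hd'
  have hnn : ∀ a b : Hull d, 0 ≤ hd a b := by
    intro a b
    have e1 := m3.tri a b a
    rw [m3.self, m3.symm b a] at e1
    linarith
  rcases (hnn f g).eq_or_lt with h0 | h0
  · have hfg := m4 f g h0.symm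
    refine ⟨fun _ => f, rfl, hfg, fun s t hs hst ht => ?_⟩
    show hd f f = t - s
    rw [m3.self]
    linarith
  · set D := hd f g with hD
    let u : ℝ → ℝ := fun s => max 0 (min 1 (s / D))
    have hu0 : ∀ s, 0 ≤ u s := fun s => le_max_left _ _
    have hu1 : ∀ s, u s ≤ 1 := fun s => max_le zero_le_one (min_le_left _ _)
    have hus : ∀ s, 0 ≤ s → s ≤ D → u s = s / D := by
      intro s hs hs'
      show max 0 (min 1 (s / D)) = s / D
      rw [min_eq_right ((div_le_one h0).2 hs'), max_eq_right (div_nonneg hs h0.le)]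
    let w : ℝ → X → ℝ := fun s x => (1 - u s) * f.1 x + u s * g.1 x
    have hw : ∀ s x y, d x y ≤ w s x + w s y := by
      intro s x y
      have e1 := mul_le_mul_of_nonneg_left (f.2.1 x y) (sub_nonneg.2 (hu1 s))
      have e2 := mul_le_mul_of_nonneg_left (g.2.1 x y) (hu0 s)
      show d x y ≤ (1 - u s) * f.1 x + u s * g.1 x + ((1 - u s) * f.1 y + u s * g.1 y)
      linarith
    let γ : ℝ → Hull d := fun s => ⟨p (w s), p1 (w s) (hw s)⟩
    have hγ0 : γ 0 = f := by
      apply Subtype.ext
      show p (w 0) = f.1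
      have : w 0 = f.1 := by
        funext x
        show (1 - u 0) * f.1 x + u 0 * g.1 x = f.1 x
        rw [hus 0 le_rfl h0.le]
        ring
      rw [this, p2]
    have hγD : γ D = g := by
      apply Subtype.ext
      show p (w D) = g.1
      have : w D = g.1 := by
        funext x
        show (1 - u D) * f.1 x + u D * g.1 x = g.1 x
        rw [hus D h0.le le_rfl, div_self h0.ne']
        ring
      rw [this, p2]
    have hle : ∀ s t, 0 ≤ s → s ≤ t → t ≤ D → hd (γ s) (γ t) ≤ t - s := by
      intro s t hs hst ht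
      apply m2
      intro x
      have e : ∀ x, |w s x - w t x| ≤ t - s := by
        intro x
        have e1 : w s x - w t x = ((t - s) / D) * (f.1 x - g.1 x) := by
          show (1 - u s) * f.1 x + u s * g.1 x - ((1 - u t) * f.1 x + u t * g.1 x) = _
          rw [hus s hs (hst.trans ht), hus t (hs.trans hst) ht]
          ring
        rw [e1, abs_mul, abs_of_nonneg (div_nonneg (by linarith) h0.le)]
        calc (t - s) / D * |f.1 x - g.1 x| ≤ (t - s) / D * D :=
              mul_le_mul_of_nonneg_left (m1 f g x) (div_nonneg (by linarith) h0.le)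
          _ = t - s := div_mul_cancel₀ _ h0.ne'
      exact (le_abs_self _).trans (p3 (w s) (w t) (t - s) (hw s) (hw t) e x)
    refine ⟨γ, hγ0, hγD, fun s t hs hst ht => le_antisymm (hle s t hs hst ht) ?_⟩
    have a1 := hle 0 s le_rfl hs (hst.trans ht)
    have a2 := hle t D (hs.trans hst) ht le_rfl
    rw [hγ0] at a1
    rw [hγD] at a2
    have a3 := m3.tri f (γ s) g
    have a4 := m3.tri (γ s) (γ t) g
    linarith

end Pool.Agent.W557.AH
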